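import Pool.Agent.VM5.Stmts

/-!
# Weyl's exponent for quintic sums: module FN5 (helper86)
-/

set_option autoImplicit false

namespace Pool.Agent.VM5.H86

open Pool.Agent.Helper69_Weyl (ee)

theorem norm_ee (x : ℝ) : ‖ee x‖ = 1 := by
  unfold ee
  rw [show (2 * (Real.pi : ℂ) * Complex.I * ((x : ℝ) : ℂ)) = ((2 * Real.pi * x : ℝ) : ℂ) * Complex.I
    by push_cast; ring]
  exact Complex.norm_exp_ofReal_mul_I _

theorem ws_triv (t ξ : ℝ) (N : ℕ) : ‖WS t ξ N‖ ≤ N := by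
  unfold WS
  refine (norm_sum_le _ _).trans ?_
  simp only [norm_ee, Finset.sum_const, nsmul_eq_mul, mul_one]
  simp

/-- 40-th roots. -/
theorem root40 {X C A B : ℝ} (hX : 0 ≤ X) (hC : 1 ≤ C) (hA : 0 ≤ A) (hB : B ≤ C)
    (h : X ^ 40 ≤ B * A ^ 40) : X ≤ C * A := by
  have h1 : X ^ 40 ≤ (C * A) ^ 40 := by
    rw [mul_pow]
    refine h.trans (mul_le_mul_of_nonneg_right ?_ (by positivity))
    exact hB.trans (le_self_pow₀ hC (by norm_num))
  exact (pow_le_pow_iff_left₀ hX (by positivity) (by norm_num)).mp h1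

theorem fn5 (mt5 : Mt5Stmt) (wey : WeyStmt) (blk : Blk5Stmt) (dir : VM.DirStmt) : Fn5Stmt := by
  obtain ⟨C₁, hC₁, h1⟩ := mt5
  obtain ⟨C₂, hC₂, h2⟩ := wey (4 / 1000000) (by norm_num)
  obtain ⟨C₃, hC₃, h3⟩ := blk
  set C' : ℝ := max 1 (4 * C₁) with hC'
  have hC'1 : 1 ≤ C' := le_max_left _ _
  have hC'2 : 4 * C₁ ≤ C' := le_max_right _ _
  have hC'0 : 0 < C' := by linarith
  refine ⟨C' + C₂ + 2 * C₃ * C', by positivity, ?_⟩
  intro N q a t ξ hq hqN hgcd hta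
  have hN : 1 ≤ N := hq.trans hqN
  have hN1 : (1 : ℝ) ≤ N := by exact_mod_cast hN
  have hN0 : (0 : ℝ) < N := by linarith
  have hq1 : (1 : ℝ) ≤ q := by exact_mod_cast hq
  have hq0 : (0 : ℝ) < q := by linarith
  have hqN' : (q : ℝ) ≤ N := by exact_mod_cast hqN
  have hqi : 0 < (1 / (q : ℝ)) ^ ((63 : ℝ) / 1000) := by positivity
  have hqe : (1 / (q : ℝ)) ^ ((63 : ℝ) / 1000) = (q : ℝ) ^ (-((63 : ℝ) / 1000)) := by
    rw [one_div, Real.inv_rpow hq0.le, Real.rpow_neg hq0.le]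
  have hX0 : 0 ≤ ‖WS t ξ N‖ := norm_nonneg _
  -- it is enough to have one of the three bounds
  have fin1 : ‖WS t ξ N‖ ≤ C' * ((N : ℝ) * (1 / (q : ℝ)) ^ ((63 : ℝ) / 1000)) →
      ‖WS t ξ N‖ ≤ (C' + C₂ + 2 * C₃ * C') * N * (1 / (q : ℝ)) ^ ((63 : ℝ) / 1000) := by
    intro h
    refine h.trans ?_
    rw [mul_assoc]
    refine mul_le_mul_of_nonneg_right ?_ (by positivity)
    have : 0 < 2 * C₃ * C' := by positivity
    linarith
  have fin2 : ‖WS t ξ N‖ ≤ C₂ * ((N : ℝ) * (1 / (q : ℝ)) ^ ((63 : ℝ) / 1000)) →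
      ‖WS t ξ N‖ ≤ (C' + C₂ + 2 * C₃ * C') * N * (1 / (q : ℝ)) ^ ((63 : ℝ) / 1000) := by
    intro h
    refine h.trans ?_
    rw [mul_assoc]
    refine mul_le_mul_of_nonneg_right ?_ (by positivity)
    have : 0 < 2 * C₃ * C' := by positivity
    linarith
  have fin3 : ‖WS t ξ N‖ ≤ (2 * C₃ * C') * ((N : ℝ) * (1 / (q : ℝ)) ^ ((63 : ℝ) / 1000)) →
      ‖WS t ξ N‖ ≤ (C' + C₂ + 2 * C₃ * C') * N * (1 / (q : ℝ)) ^ ((63 : ℝ) / 1000) := by
    intro h
    refine h.trans ?_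
    rw [mul_assoc (C' + C₂ + 2 * C₃ * C')]
    refine mul_le_mul_of_nonneg_right ?_ (by positivity)
    linarith
  rcases le_or_gt ((N : ℝ) ^ ((992 : ℝ) / 1000)) (q : ℝ) with hc | hc
  · -- case A
    apply fin1
    have hq11 : (q : ℝ) ≤ (N : ℝ) ^ ((11 : ℝ) / 10) := by
      refine hqN'.trans ?_
      calc (N : ℝ) = (N : ℝ) ^ (1 : ℝ) := (Real.rpow_one _).symm
        _ ≤ (N : ℝ) ^ ((11 : ℝ) / 10) := Real.rpow_le_rpow_of_exponent_le hN1 (by norm_num)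
    have h4 := h1 N q a t ξ hN hq hgcd hta hc hq11
    refine root40 (B := 4 * C₁) hX0 hC'1 (mul_nonneg hN0.le hqi.le) hC'2 (h4.trans ?_)
    have h5 : (1 + (N : ℝ) / q) ^ 2 ≤ 4 * ((N : ℝ) / q) ^ 2 := by
      have h6 : 1 ≤ (N : ℝ) / q := (one_le_div hq0).mpr hqN'
      nlinarith
    have h7 : ((N : ℝ) * (1 / (q : ℝ)) ^ ((63 : ℝ) / 1000)) ^ 40 =
        (N : ℝ) ^ (40 : ℝ) * (q : ℝ) ^ (-((252 : ℝ) / 100)) := by
      rw [mul_pow, hqe, ← Real.rpow_natCast ((q : ℝ) ^ (-((63 : ℝ) / 1000))) 40,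
        ← Real.rpow_mul hq0.le, ← Real.rpow_natCast (N : ℝ) 40]
      norm_num
    have h8 : (N : ℝ) ^ ((3748 : ℝ) / 100) * ((N : ℝ) / q) ^ 2 ≤
        (N : ℝ) ^ (40 : ℝ) * (q : ℝ) ^ (-((252 : ℝ) / 100)) := by
      have e1 : ((N : ℝ) / q) ^ 2 = (N : ℝ) ^ (2 : ℝ) * (q : ℝ) ^ (-(2 : ℝ)) := by
        rw [div_pow, Real.rpow_neg hq0.le, div_eq_mul_inv]
        norm_num
      have e2 : (N : ℝ) ^ (40 : ℝ) = (N : ℝ) ^ ((3748 : ℝ) / 100) * (N : ℝ) ^ (2 : ℝ) *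
          (N : ℝ) ^ ((52 : ℝ) / 100) := by
        rw [← Real.rpow_add hN0, ← Real.rpow_add hN0]
        norm_num
      have e3 : (q : ℝ) ^ (-(2 : ℝ)) = (q : ℝ) ^ (-((252 : ℝ) / 100)) *
          (q : ℝ) ^ ((52 : ℝ) / 100) := by
        rw [← Real.rpow_add hq0]
        norm_num
      have e4 : (q : ℝ) ^ ((52 : ℝ) / 100) ≤ (N : ℝ) ^ ((52 : ℝ) / 100) :=
        Real.rpow_le_rpow hq0.le hqN' (by norm_num)
      rw [e1, e2, e3]
      have p1 : 0 < (N : ℝ) ^ ((3748 : ℝ) / 100) := Real.rpow_pos_of_pos hN0 _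
      have p2 : 0 < (N : ℝ) ^ (2 : ℝ) := Real.rpow_pos_of_pos hN0 _
      have p3 : 0 < (q : ℝ) ^ (-((252 : ℝ) / 100)) := Real.rpow_pos_of_pos hq0 _
      calc (N : ℝ) ^ ((3748 : ℝ) / 100) * ((N : ℝ) ^ (2 : ℝ) *
            ((q : ℝ) ^ (-((252 : ℝ) / 100)) * (q : ℝ) ^ ((52 : ℝ) / 100)))
          = ((N : ℝ) ^ ((3748 : ℝ) / 100) * (N : ℝ) ^ (2 : ℝ) * (q : ℝ) ^ (-((252 : ℝ) / 100))) *
            (q : ℝ) ^ ((52 : ℝ) / 100) := by ring
        _ ≤ ((N : ℝ) ^ ((3748 : ℝ) / 100) * (N : ℝ) ^ (2 : ℝ) * (q : ℝ) ^ (-((252 : ℝ) / 100))) *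
            (N : ℝ) ^ ((52 : ℝ) / 100) := mul_le_mul_of_nonneg_left e4 (by positivity)
        _ = _ := by ring
    rw [h7]
    calc C₁ * (N : ℝ) ^ ((3748 : ℝ) / 100) * (1 + (N : ℝ) / q) ^ 2
        ≤ C₁ * (N : ℝ) ^ ((3748 : ℝ) / 100) * (4 * ((N : ℝ) / q) ^ 2) :=
          mul_le_mul_of_nonneg_left h5 (by positivity)
      _ = 4 * C₁ * ((N : ℝ) ^ ((3748 : ℝ) / 100) * ((N : ℝ) / q) ^ 2) := by ring
      _ ≤ _ := mul_le_mul_of_nonneg_left h8 (by positivity)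
  · -- case B
    have hN2 : 2 ≤ N := by
      by_contra hlt
      have e : N = 1 := by omega
      subst e
      simp only [Nat.cast_one, Real.one_rpow] at hc
      linarith
    have hQ : 2 * q ≤ N ^ 4 := by
      have e1 : 2 * q ≤ N * N := Nat.mul_le_mul hN2 hqN
      have e2 : N * N ≤ N ^ 4 := by
        rw [← sq]
        exact Nat.pow_le_pow_right hN (by norm_num)
      exact e1.trans e2
    obtain ⟨b, u, hu1, huQ, hqu, hbu, htb⟩ := dir t a q (N ^ 4) hq hgcd hta hQ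
    have hu1' : (1 : ℝ) ≤ u := by exact_mod_cast hu1
    have hu0 : (0 : ℝ) < u := by linarith
    push_cast at htb
    rcases le_or_gt N u with hNu | hNu
    · -- Weyl
      apply fin2
      have hNu' : (u : ℝ) ≤ (N : ℝ) ^ 4 := by exact_mod_cast huQ
      have htb' : |t - (b : ℝ) / (u : ℝ)| ≤ 1 / (u : ℝ) ^ 2 := by
        refine htb.trans (one_div_le_one_div_of_le (by positivity) ?_)
        rw [sq]
        exact mul_le_mul_of_nonneg_left hNu' hu0.le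
      refine (h2 N u b t ξ hN hNu huQ hbu htb').trans (mul_le_mul_of_nonneg_left ?_ hC₂.le)
      have e1 : (q : ℝ) ^ ((63 : ℝ) / 1000) ≤ (N : ℝ) ^ ((62496 : ℝ) / 1000000) := by
        have := Real.rpow_le_rpow hq0.le hc.le (show (0 : ℝ) ≤ (63 : ℝ) / 1000 by norm_num)
        rw [← Real.rpow_mul hN0.le] at this
        norm_num at this ⊢
        exact this
      rw [one_div, Real.inv_rpow hq0.le, ← div_eq_mul_inv, le_div_iff₀ (by positivity)]
      calc (N : ℝ) ^ ((15 : ℝ) / 16 + 4 / 1000000) * (q : ℝ) ^ ((63 : ℝ) / 1000)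
          ≤ (N : ℝ) ^ ((15 : ℝ) / 16 + 4 / 1000000) * (N : ℝ) ^ ((62496 : ℝ) / 1000000) :=
            mul_le_mul_of_nonneg_left e1 (by positivity)
        _ = (N : ℝ) ^ (1 : ℝ) := by
            rw [← Real.rpow_add hN0]
            norm_num
        _ = N := Real.rpow_one _
    · -- blocks
      apply fin3
      have hM : ∀ L : ℕ, L ≤ u → ‖WS ((b : ℝ) / (u : ℝ)) ξ L‖ ≤
          C' * (u : ℝ) ^ ((937 : ℝ) / 1000) := by
        intro L hL
        have hLu : (L : ℝ) ≤ u := by exact_mod_cast hL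
        rcases Nat.eq_zero_or_pos L with h0 | hLpos
        · subst h0
          refine (ws_triv _ _ _).trans ?_
          simp only [Nat.cast_zero]
          positivity
        have hL1 : (1 : ℝ) ≤ L := by exact_mod_cast hLpos
        have hL0 : (0 : ℝ) < L := by linarith
        rcases le_or_gt (u : ℝ) ((L : ℝ) ^ ((11 : ℝ) / 10)) with hc2 | hc2
        · have hl2 : (L : ℝ) ^ ((992 : ℝ) / 1000) ≤ (u : ℝ) := by
            refine le_trans ?_ hLu
            calc (L : ℝ) ^ ((992 : ℝ) / 1000) ≤ (L : ℝ) ^ (1 : ℝ) :=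
                  Real.rpow_le_rpow_of_exponent_le hL1 (by norm_num)
              _ = L := Real.rpow_one _
          have h4 := h1 L u b ((b : ℝ) / (u : ℝ)) ξ hLpos hu1 hbu (by simp) hl2 hc2
          refine root40 (norm_nonneg _) hC'1 (by positivity) hC'2 (h4.trans ?_)
          have e1 : ((u : ℝ) ^ ((937 : ℝ) / 1000)) ^ 40 = (u : ℝ) ^ ((3748 : ℝ) / 100) := by
            rw [← Real.rpow_natCast ((u : ℝ) ^ ((937 : ℝ) / 1000)) 40, ← Real.rpow_mul hu0.le]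
            norm_num
          have e2 : (L : ℝ) ^ ((3748 : ℝ) / 100) ≤ (u : ℝ) ^ ((3748 : ℝ) / 100) :=
            Real.rpow_le_rpow hL0.le hLu (by norm_num)
          have e3 : (1 + (L : ℝ) / u) ^ 2 ≤ 4 := by
            have h6 : (L : ℝ) / u ≤ 1 := (div_le_one hu0).mpr hLu
            have h7 : 0 ≤ (L : ℝ) / u := by positivity
            nlinarith
          rw [e1]
          calc C₁ * (L : ℝ) ^ ((3748 : ℝ) / 100) * (1 + (L : ℝ) / u) ^ 2
              ≤ C₁ * (u : ℝ) ^ ((3748 : ℝ) / 100) * 4 := by gcongr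
            _ = 4 * C₁ * (u : ℝ) ^ ((3748 : ℝ) / 100) := by ring
        · refine (ws_triv _ _ _).trans ?_
          have e1 : (L : ℝ) ≤ (u : ℝ) ^ ((937 : ℝ) / 1000) := by
            have e2 := Real.rpow_le_rpow (by positivity) hc2.le
              (show (0 : ℝ) ≤ (10 : ℝ) / 11 by norm_num)
            rw [← Real.rpow_mul hL0.le] at e2
            have e3 : (11 : ℝ) / 10 * (10 / 11) = 1 := by norm_num
            rw [e3, Real.rpow_one] at e2
            exact e2.trans (Real.rpow_le_rpow_of_exponent_le hu1' (by norm_num))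
          calc (L : ℝ) ≤ 1 * (u : ℝ) ^ ((937 : ℝ) / 1000) := by rw [one_mul]; exact e1
            _ ≤ C' * (u : ℝ) ^ ((937 : ℝ) / 1000) :=
              mul_le_mul_of_nonneg_right hC'1 (by positivity)
      have h4 := h3 N u b t ξ (C' * (u : ℝ) ^ ((937 : ℝ) / 1000)) hu1 hNu.le (by positivity)
        htb hM
      refine h4.trans ?_
      have e1 : (N : ℝ) / u * (C' * (u : ℝ) ^ ((937 : ℝ) / 1000)) =
          C' * N * (1 / (u : ℝ)) ^ ((63 : ℝ) / 1000) := by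
        have e2 : (1 / (u : ℝ)) ^ ((63 : ℝ) / 1000) = (u : ℝ) ^ (-((63 : ℝ) / 1000)) := by
          rw [one_div, Real.inv_rpow hu0.le, Real.rpow_neg hu0.le]
        have e3 : (u : ℝ) ^ (-((63 : ℝ) / 1000)) = (u : ℝ) ^ ((937 : ℝ) / 1000) * (u : ℝ)⁻¹ := by
          rw [← Real.rpow_neg_one (u : ℝ), ← Real.rpow_add hu0]
          norm_num
        rw [e2, e3]
        ring
      have e4 : (1 / (u : ℝ)) ^ ((63 : ℝ) / 1000) ≤ 2 * (1 / (q : ℝ)) ^ ((63 : ℝ) / 1000) := by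
        have e5 : 1 / (u : ℝ) ≤ 2 * (1 / (q : ℝ)) := by
          have e6 : (q : ℝ) ≤ 2 * u := by exact_mod_cast hqu
          rw [mul_one_div, div_le_div_iff₀ hu0 hq0]
          linarith
        calc (1 / (u : ℝ)) ^ ((63 : ℝ) / 1000) ≤ (2 * (1 / (q : ℝ))) ^ ((63 : ℝ) / 1000) :=
              Real.rpow_le_rpow (by positivity) e5 (by norm_num)
          _ = (2 : ℝ) ^ ((63 : ℝ) / 1000) * (1 / (q : ℝ)) ^ ((63 : ℝ) / 1000) :=
              Real.mul_rpow (by norm_num) (by positivity)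
          _ ≤ 2 * (1 / (q : ℝ)) ^ ((63 : ℝ) / 1000) := by
              refine mul_le_mul_of_nonneg_right ?_ (by positivity)
              calc (2 : ℝ) ^ ((63 : ℝ) / 1000) ≤ (2 : ℝ) ^ (1 : ℝ) :=
                    Real.rpow_le_rpow_of_exponent_le (by norm_num) (by norm_num)
                _ = 2 := Real.rpow_one _
      rw [mul_assoc, e1]
      calc C₃ * (C' * N * (1 / (u : ℝ)) ^ ((63 : ℝ) / 1000))
          ≤ C₃ * (C' * N * (2 * (1 / (q : ℝ)) ^ ((63 : ℝ) / 1000))) := by gcongr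
        _ = _ := by ring

end Pool.Agent.VM5.H86
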